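import Pool.Agent.H82.HD.TA

/-!
MP_ee74d2_an, theorem HD: targets of the recursion (block R) and of the two-ends case (block T).
-/

set_option autoImplicit false

namespace Pool.Agent.H82.HD

open MeasureTheory Set
open Pool.Agent.H83.G
open Pool.Agent.H22.G (co)
open scoped ENNReal NNReal RealInnerProductSpace

/-- OENp: one end -/
def T_OENp : Prop := ∀ (m L N : ℕ) (x : ℝ) (β : E m → ℂ) (Ψ Ξ : Z m → ℂ) (ψ χ : Z m → ℝ)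
  (δ ε₀ : ℝ), 1 ≤ m → 0 < x → x ≤ 4 → 2 < m * x → IsPU β → IsPsi Ψ ψ → IsLow Ξ χ → 0 < δ →
  δ ≤ 1 / 4 → 2 * δ ≤ ε₀ → ε₀ ≤ 1 / 4 → 2 * m + 6 ≤ L → 2 * m + 6 ≤ N → ∃ C : ℝ, 1 ≤ C ∧
  ∀ (κ R T A H g : ℝ) (G : Z m → ℂ)
  (S : Finset (Pk m)) (QQ : Finset (Zi m)) (l k : ℕ) (X : Finset (Z m)), 0 ≤ κ → κ ≤ 3 / 8 →
  1 ≤ R → C ≤ R ^ δ → R ≤ T → 0 < A → 0 < H → 0 ≤ g →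
  Bdp m L β x (κ + C * R ^ (-δ)) (R ^ (1 - ε₀)) T g → Cls L κ R A G → BC β κ R T A G → Sep X →
  (∀ W ∈ S, W.1 ∈ Ks m (sR R)) →
  (∀ z ∈ X, T ≤ tm z ∧ tm z ≤ 2 * T ∧ cb (Real.sqrt R) z ∈ QQ ∧
    H ≤ ‖∑ W ∈ SB QQ R (R ^ (1 - ε₀)) δ l k S
      (bl R (R ^ (1 - ε₀)) (cb (Real.sqrt R) z)), Fp β ψ R δ G W z‖) →
  (X.card : ℝ) * H ^ (2 + x) ≤ C * R ^ (2 * lo m * δ) * 2 ^ k * g * A ^ x *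
    R ^ (m * x / 2 - 1) * ∑ W ∈ S, al N β R δ G W ^ 2 * R ^ (((m : ℝ) + 2) / 2)

/-- BROp: a ball of radius `R`, without and with the two-ends case -/
def T_BROp : Prop := ∀ (m L : ℕ) (x γ : ℝ) (β : E m → ℂ) (δ ε₀ ε₁ ε₂ : ℝ), 1 ≤ m → 0 < x →
  x ≤ 4 → 2 < m * x → 2 * m + 6 ≤ L → IsPU β → 0 < δ → δ ≤ 1 / 100 → 2 * δ ≤ ε₀ → ε₀ ≤ 1 / 4 →
  0 < ε₁ →
  ∃ C : ℝ, 1 ≤ C ∧ ∀ (κ R T A H g : ℝ) (G : Z m → ℂ) (z₀ : Z m)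
  (X : Finset (Z m)), 0 ≤ κ → κ ≤ 3 / 8 → C ≤ R → R ≤ T → 0 < A → A ≤ H → 1 ≤ g →
  Cls L κ R A G → BC β κ R T A G → Sep X →
  (∀ z ∈ X, ‖z - z₀‖ ≤ R ∧ T ≤ tm z ∧ tm z ≤ 2 * T ∧ H ≤ ‖TF G z‖) →
  Bdp m L β x (κ + C * R ^ (-δ)) (R ^ (1 - ε₀)) T g →
  (X.card : ℝ) * H ^ (2 + x) ≤
    C * (R ^ (ε₁ + lb m * δ + (m + 2) * ε₀) * g) * A ^ x * R ^ (m * x / 2 - 1) *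
      (Er (m + 3) β R δ G z₀).toReal ∧
  (TENd m L x γ → δ ≤ γ → ε₀ ≤ γ → 4 * δ ≤ ε₂ → R ^ (1 + ε₂) ≤ T →
    (X.card : ℝ) * H ^ (2 + x) ≤
      C * (R ^ (ε₁ + lb m * δ) * g + R ^ (lb m * (δ + ε₀))) * A ^ x * R ^ (m * x / 2 - 1) *
        (Er (m + 3) β R δ G z₀).toReal)

/-- RECp: the recursion, without and with the two-ends case -/
def T_RECp : Prop := ∀ (m L : ℕ) (x γ : ℝ) (β : E m → ℂ) (δ ε₀ ε₁ ε₂ : ℝ), 1 ≤ m → 0 < x →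
  x ≤ 4 → 2 < m * x → 2 * m + 6 ≤ L → IsPU β → 0 < δ → δ ≤ 1 / 100 → 2 * δ ≤ ε₀ → ε₀ ≤ 1 / 4 →
  0 < ε₁ →
  ∃ C : ℝ, 1 ≤ C ∧ ∀ (κ R T g : ℝ), 0 ≤ κ → κ ≤ 3 / 8 → C ≤ R → R ≤ T → 1 ≤ g →
  Bdp m L β x (κ + C * R ^ (-δ)) (R ^ (1 - ε₀)) T g →
  Bdp m L β x κ R T (C * R ^ (ε₁ + 2 * lb m * δ + (m + 2) * ε₀) * g) ∧
  (TENd m L x γ → δ ≤ γ → ε₀ ≤ γ → 4 * δ ≤ ε₂ → R ^ (1 + ε₂) ≤ T →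
    Bdp m L β x κ R T (C * R ^ (ε₁ + 2 * lb m * δ) * g + C * R ^ (2 * lb m * (δ + ε₀))))

/-- MAINp: the level set estimate at all scales, time equal to the scale -/
def T_MAINp : Prop := ∀ (m L : ℕ) (x γ : ℝ) (β : E m → ℂ) (ε : ℝ), 1 ≤ m → 0 < x → x ≤ 4 →
  2 < m * x → 0 < γ → TENd m L x γ → 2 * m + 6 ≤ L → IsPU β → 0 < ε →
  ∃ C : ℝ, 0 < C ∧ ∀ R : ℝ, 1 ≤ R → Bdp m L β x (1 / 4) R R (C * R ^ ε)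

/-! ### two ends -/

open scoped Classical in
/-- BUS: the bush of the tubes through a cube -/
def T_BUS : Prop := ∀ m : ℕ, ∃ C : ℝ, 1 ≤ C ∧ ∀ (R δ ε₀ : ℝ) (TT : Finset (Pk m))
  (QQ : Finset (Zi m)) (q₀ : Zi m) (l k : ℕ), 1 ≤ R → 0 ≤ δ → 0 ≤ ε₀ → 2 * δ + ε₀ ≤ 1 / 2 →
  (∀ Tu ∈ TT, ‖ctr (sR R) Tu.1‖ ≤ 3 ∧ Inc R δ Tu q₀ ∧
    2 ^ k ≤ nB QQ R (R ^ (1 - ε₀)) δ l Tu) →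
  C ≤ (2 : ℝ) ^ k →
  (TT.card : ℝ) * 2 ^ (l + k) ≤ C * R ^ (6 * ((m : ℝ) + 2) * (δ + ε₀)) * QQ.card

open scoped Classical in
/-- TDA: the numbers of the two-ends case -/
def T_TDA : Prop := ∀ (m L : ℕ) (β : E m → ℂ) (Ψ : Z m → ℂ) (ψ : Z m → ℝ) (δ ε₀ B : ℝ), 4 ≤ m →
  IsPU β → IsPsi Ψ ψ → 0 < δ → δ ≤ 1 / 100 → 0 < ε₀ → ε₀ ≤ 1 / 4 → 1 ≤ B → ∃ N₀ : ℕ,
  ∀ N : ℕ, N₀ ≤ N → ∃ C : ℝ, 1 ≤ C ∧ ∀ (κ R A H a b : ℝ) (G : Z m → ℂ) (z₀ : Z m)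
  (S : Finset (Pk m)) (l k : ℕ) (QQ : Finset (Zi m)) (ν : ℝ) (X : Finset (Z m)), 0 ≤ κ →
  κ ≤ 3 / 8 → 1 ≤ R → C ≤ R ^ δ → 0 < A → 0 < H → A ≤ R ^ δ * H → Cls L κ R A G → Sep X →
  X.Nonempty → (∀ z ∈ X, ‖z - z₀‖ ≤ R) →
  (∀ W ∈ S, W.1 ∈ Ks m (sR R) ∧ ‖ctr (sR R) W.1‖ ≤ 3 ∧ a ≤ al N β R δ G W ∧
    al N β R δ G W ≤ 2 * a) →
  ((S.card : ℝ) ≤ B * R ^ (2 * ((m : ℝ) + 2))) → 0 < a → 1 ≤ b →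
  (∀ W ∈ S, b ≤ ((S.filter (fun W' => tb R W' = tb R W)).card : ℝ) ∧
    ((S.filter (fun W' => tb R W' = tb R W)).card : ℝ) ≤ 2 * b) →
  0 < ν → ν * QQ.card ≤ R ^ δ * X.card →
  (∀ q, ((X.filter (fun z => cb (Real.sqrt R) z = q)).card : ℝ) ≤ 2 * ν) →
  (∀ z ∈ X, cb (Real.sqrt R) z ∈ QQ) →
  (∀ q ∈ QQ, ‖Real.sqrt R • zc q - z₀‖ ≤ ((m : ℝ) + 2) * R) → C ≤ (2 : ℝ) ^ k →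
  (∀ z ∈ X, H ≤ ‖∑ W ∈ SB QQ R (R ^ (1 - ε₀)) δ l k S
    (bl R (R ^ (1 - ε₀)) (cb (Real.sqrt R) z)), Fp β ψ R δ G W z‖) →
  ∃ (S₁ : Finset (Pk m)) (N' q₄ M t Λ : ℝ), S₁ ⊆ S ∧
    Λ = C * R ^ (10 * lo m * (δ + ε₀)) ∧ t = ((S₁.image (tb R)).card : ℝ) ∧
    (∀ W ∈ S₁, (2 : ℝ) ^ (l + k) ≤ ((QQ.filter (fun q => Inc R δ (tb R W) q)).card : ℝ) ∧
      S.filter (fun W' => tb R W' = tb R W) ⊆ S₁) ∧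
    1 ≤ M ∧ 0 < q₄ ∧ (X.card : ℝ) ≤ R ^ δ * N' ∧
    N' * H ^ (2 * ((m : ℝ) + 2) / m) ≤ Λ * M ^ (2 / (m : ℝ)) * a ^ (2 * ((m : ℝ) + 2) / m) *
      (t * b) * R ^ (((m : ℝ) + 2) / 2) ∧
    N' * H ^ 2 ≤ Λ * q₄ * M * b * a ^ 2 * R ^ (((m : ℝ) + 1) / 2) ∧
    q₄ * M ≤ 4 * t * 2 ^ (l + k) ∧ q₄ * M ≤ Λ * Real.sqrt R * t ∧ (QQ.card : ℝ) ≤ Λ * q₄ ∧
    M * 2 ^ (l + k) ≤ Λ * QQ.card ∧ (2 : ℝ) ^ (l + k) ≤ Λ * Real.sqrt R ∧ M ≤ t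

/-- PRJ: projective coordinates of the cubes on a tube -/
def T_PRJ : Prop := ∀ m : ℕ, ∃ C : ℝ, 1 ≤ C ∧ ∀ (R T δ : ℝ) (z₀ : Z m), 1 ≤ R → 0 ≤ δ →
  16 * ((m : ℝ) + 2) * R ≤ T → 3 / 4 * T ≤ tm z₀ → tm z₀ ≤ 3 * T →
  (∀ q : Zi m, ‖co R q - z₀‖ ≤ ((m : ℝ) + 2) * R → T / 2 ≤ tm (co R q) ∧ tm (co R q) ≤ 4 * T ∧
    T / (8 * Real.sqrt R) ≤ uq R T q ∧ (uq R T q : ℝ) ≤ 2 * T / Real.sqrt R) ∧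
  ∀ q q' : Zi m, ‖co R q - z₀‖ ≤ ((m : ℝ) + 2) * R → ‖co R q' - z₀‖ ≤ ((m : ℝ) + 2) * R →
    |(uq R T q : ℝ) - uq R T q'| ≤ 20 * ((m : ℝ) + 2) * Real.sqrt R ∧
    ∀ Tu : Pk m, ‖ctr (sR R) Tu.1‖ ≤ 3 → Inc R δ Tu q → Inc R δ Tu q' →
      (∀ i, |T / Real.sqrt R * vc (wv (ctr (sR R) Tu.1)) i + uq R T q * (T⁻¹ *
        vc (bp (ctr (sR R) Tu.1) (co R q') - (z₀.1, z₀.2.1)) i) - yq R T z₀ q i| ≤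
          C * R ^ (2 * δ)) ∧
      (uq R T q = uq R T q' → ‖co R q - co R q'‖ ≤ C * R ^ (1 / 2 + 2 * δ))

/-- PRM: few tubes are near two given points in projective coordinates -/
def T_PRM : Prop := ∀ m : ℕ, ∃ C : ℝ, 1 ≤ C ∧ ∀ (R T δ E' ω u v : ℝ) (z₀ : Z m)
  (TT : Finset (Pk m)) (qT : Pk m → Zi m) (y y' : Fin (m + 1) → ℝ), 1 ≤ R → 0 ≤ δ →
  16 * ((m : ℝ) + 2) * R ≤ T → 1 ≤ E' → 0 < ω → ω ≤ 1 → T / (8 * Real.sqrt R) ≤ u →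
  u ≤ 2 * T / Real.sqrt R → ω * Real.sqrt R ≤ |u - v| →
  (∀ Tu ∈ TT, ‖ctr (sR R) Tu.1‖ ≤ 3 ∧ Inc R δ Tu (qT Tu) ∧
    ‖co R (qT Tu) - z₀‖ ≤ ((m : ℝ) + 2) * R ∧
    (∀ i, |T / Real.sqrt R * vc (wv (ctr (sR R) Tu.1)) i + u * (T⁻¹ *
      vc (bp (ctr (sR R) Tu.1) (co R (qT Tu)) - (z₀.1, z₀.2.1)) i) - y i| ≤ E') ∧
    ∀ i, |T / Real.sqrt R * vc (wv (ctr (sR R) Tu.1)) i + v * (T⁻¹ *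
      vc (bp (ctr (sR R) Tu.1) (co R (qT Tu)) - (z₀.1, z₀.2.1)) i) - y' i| ≤ E') →
  (TT.card : ℝ) ≤ (C * E' / ω) ^ m * (C * E' * R ^ (2 * δ)) ^ (m + 2)

open scoped Classical in
/-- CBA: a large part of the tubes has few back projections -/
def T_CBA : Prop := ∃ C₀ : ℕ, 1 ≤ C₀ ∧ ∀ m : ℕ, 1 ≤ m → ∃ C : ℝ, 1 ≤ C ∧
  ∀ (R T δ n ω K Θ : ℝ) (z₀ : Z m) (TT : Finset (Pk m)) (QQ : Finset (Zi m)), 1 ≤ R → 0 ≤ δ →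
  16 * ((m : ℝ) + 2) * R ≤ T → 3 / 4 * T ≤ tm z₀ → tm z₀ ≤ 3 * T →
  (∀ Tu ∈ TT, ‖ctr (sR R) Tu.1‖ ≤ 3 ∧
    n ≤ ((QQ.filter (fun q => Inc R δ Tu q)).card : ℝ)) →
  (∀ q ∈ QQ, ‖co R q - z₀‖ ≤ ((m : ℝ) + 2) * R) → 0 < ω → ω ≤ 1 →
  C * R ^ (2 * ((m : ℝ) + 2) * δ) * (ω * Real.sqrt R) ≤ n → C ≤ ω ^ 6 * Real.sqrt R →
  1 ≤ Θ → (QQ.card : ℝ) ≤ Θ * Real.sqrt R → 1 ≤ K → Θ ^ 2 ≤ K * TT.card →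
  ∃ (p : ℝ × E m) (TT₂ : Finset (Pk m)), TT₂ ⊆ TT ∧
    (TT.card : ℝ) ≤ (K * (C * R ^ (4 * δ) / ω ^ 7) ^ (4 * (m + 2))) ^ C₀ * Θ * TT₂.card ∧
    ∀ Tu ∈ TT₂, ∃ q ∈ QQ, Inc R δ Tu q ∧ ‖bp (ctr (sR R) Tu.1) (co R q) - p‖ ≤ T * sR R

/-- CFN: numerical contradiction -/
def T_CFN : Prop := ∀ C₀ : ℕ, ∃ (s : ℝ) (m₀ : ℕ), 0 < s ∧ s < 1 / 3 ∧ 4 ≤ m₀ ∧
  ∀ m : ℕ, m₀ ≤ m → ∃ γ : ℝ, 0 < γ ∧ ∀ C₁ : ℝ, ∃ R₀ : ℝ, 1 ≤ R₀ ∧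
  ∀ (R Λ t M b n Q q₄ a A x : ℝ), R₀ ≤ R → 4 ≤ Λ → Λ ≤ R ^ γ → 0 < t → 1 ≤ M → 1 ≤ b → 0 < n →
  0 < Q → 0 < q₄ → 0 < a → 0 < A → x = (8 / 3 - s) / m → q₄ * M ≤ 4 * t * n → Q ≤ Λ * q₄ →
  M * n ≤ Λ * Q → q₄ * M ≤ Λ * Real.sqrt R * t → M ≤ t →
  t * b * a ^ 2 * R ^ (((m : ℝ) + 2) / 2) ≤ Λ * (A ^ 2 * R ^ ((m : ℝ) + 2)) → a ≤ Λ * A →
  n ≤ Λ * Real.sqrt R →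
  R ^ (m * x / 2 - 1) < (n / Real.sqrt R) ^ (1 - m * x / 4) * (M * a ^ 2 / A ^ 2) ^ (x / 2) →
  C₁ ≤ (n / (Λ * Real.sqrt R)) ^ 6 * Real.sqrt R ∧ n / (Λ * Real.sqrt R) ≤ 1 ∧
  ∃ K Θ : ℝ, 1 ≤ K ∧ 1 ≤ Θ ∧ Q ≤ Θ * Real.sqrt R ∧ Θ ^ 2 ≤ K * t ∧
    (K * (Λ / (n / (Λ * Real.sqrt R)) ^ 7) ^ (4 * (m + 2))) ^ C₀ * Θ * (Λ * (A ^ 2 * R ^ 2)) <
      t * b * a ^ 2

/-- TEN1: two ends in high dimensions -/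
def T_TEN1 : Prop := ∃ (s : ℝ) (m₀ : ℕ), 0 < s ∧ s < 1 / 3 ∧ 4 ≤ m₀ ∧ ∀ m : ℕ, m₀ ≤ m →
  ∃ γ : ℝ, 0 < γ ∧ ∀ L : ℕ, 2 * m + 6 ≤ L → TENd m L ((8 / 3 - s) / m) γ

end Pool.Agent.H82.HD
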