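import Mathlib

/-!
MP_ee74d2_an, theorem HD: combinatorial targets (block C). `ι → ℤ` is the lattice, `D = card ι`.
-/

set_option autoImplicit false

namespace Pool.Agent.H82.HD

open scoped Pointwise

section

variable {ι : Type} [Fintype ι]

open scoped Classical in
/-- the rounded dilate `⌊c a⌋`, `a ∈ A` -/
noncomputable def fl (c : ℝ) (A : Finset (ι → ℤ)) : Finset (ι → ℤ) :=
  A.image fun a i => ⌊c * (a i : ℝ)⌋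

open scoped Classical in
/-- the rounded points `⌊(1-u) a + u b⌋`, `a ∈ A`, `b ∈ B` -/
noncomputable def sl (u : ℝ) (A B : Finset (ι → ℤ)) : Finset (ι → ℤ) :=
  (A ×ˢ B).image fun p i => ⌊(1 - u) * (p.1 i : ℝ) + u * (p.2 i : ℝ)⌋

open scoped Classical in
/-- `lam` is an approximate multiplier of `B` -/
def Qm (N K : ℝ) (B : Finset (ι → ℤ)) (lam : ℝ) : Prop :=
  ((B - fl lam B).card : ℝ) ≤ K * N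

end

open scoped Classical in
/-- BSG: the Balog-Szemeredi-Gowers lemma for dense bipartite graphs -/
def T_BSG : Prop := ∀ (α β : Type) (A : Finset α) (B : Finset β) (G : Finset (α × β)) (N K : ℝ),
  1 ≤ K → 0 < N → G ⊆ A ×ˢ B → (A.card : ℝ) ≤ N → (B.card : ℝ) ≤ N →
  N ^ 2 ≤ K * G.card →
  ∃ A' ⊆ A, ∃ B' ⊆ B, N ^ 2 ≤ 16 * K ^ 2 * ((G.filter fun e => e.1 ∈ A' ∧ e.2 ∈ B').card : ℝ) ∧
    ∀ a ∈ A', ∀ b ∈ B', N ^ 2 ≤ 2 ^ 17 * K ^ 7 *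
      (((B ×ˢ A).filter fun p => (a, p.1) ∈ G ∧ (p.2, p.1) ∈ G ∧ (p.2, b) ∈ G).card : ℝ)

open scoped Classical in
/-- PAT: six slices in position `(x, x+h), (y, y+h), (y', y'+h)` -/
def T_PAT : Prop := ∀ (τ : Type) (TT : Finset τ) (S : τ → Finset ℤ) (I : Finset ℤ) (w : ℤ → ℝ)
  (J κ Θ : ℝ), TT.Nonempty → 1 ≤ J → 0 < κ → κ ≤ 1 → 2 ^ 14 ≤ κ ^ 6 * J → 0 ≤ Θ →
  (∀ u ∈ I, ∀ v ∈ I, |((u : ℝ) - v)| ≤ J) → (∀ u ∈ I, 0 ≤ w u) → ∑ u ∈ I, w u ≤ Θ * J →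
  (∀ T ∈ TT, S T ⊆ I ∧ κ * J ≤ ((S T).card : ℝ)) →
  ∃ x h y y' : ℤ,
    (∀ u ∈ ({x, x + h, y, y + h, y', y' + h} : Finset ℤ), u ∈ I ∧ w u ≤ 2 ^ 12 / κ ^ 6 * Θ) ∧
    (∀ v ∈ ({h, y - x, y' - x, y - y', y - x - h, y - x + h, y' - x - h, y' - x + h} : Finset ℤ),
      κ ^ 6 / 2 ^ 14 * J ≤ |(v : ℝ)|) ∧
    κ ^ 6 / 2 ^ 9 * (TT.card : ℝ) ≤
      ((TT.filter fun T => ({x, x + h, y, y + h, y', y' + h} : Finset ℤ) ⊆ S T).card : ℝ)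

open scoped Classical in
/-- FLB: rounded dilates -/
def T_FLB : Prop := ∀ (ι : Type) [Fintype ι] (A B : Finset (ι → ℤ)) (c d L : ℝ), 1 ≤ L →
  L⁻¹ ≤ |c| → |c| ≤ L →
  (A.card : ℝ) ≤ (L + 2) ^ Fintype.card ι * ((fl c A).card : ℝ) ∧ (fl c A).card ≤ A.card ∧
  (((fl c A - fl c B).card : ℕ) : ℝ) ≤ 2 ^ Fintype.card ι * ((A - B).card : ℝ) ∧
  (((A - fl (c * d) B).card : ℕ) : ℝ) ≤
    (2 * L + 4) ^ Fintype.card ι * ((A - fl c (fl d B)).card : ℝ) ∧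
  (((A - fl c (fl d B)).card : ℕ) : ℝ) ≤
    (2 * L + 4) ^ Fintype.card ι * ((A - fl (c * d) B).card : ℝ) ∧
  (((A - fl (c + d) B).card : ℕ) : ℝ) ≤
    2 ^ Fintype.card ι * ((A - (fl c B + fl d B)).card : ℝ) ∧
  (((A - fl (-c) B).card : ℕ) : ℝ) ≤ 2 ^ Fintype.card ι * ((A + fl c B).card : ℝ) ∧
  (((fl (1 - d) A + fl d B).card : ℕ) : ℝ) ≤ 2 ^ Fintype.card ι * ((sl d A B).card : ℝ) ∧
  fl 1 A = A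

open scoped Classical in
/-- MUL: approximate multipliers -/
def T_MUL : Prop := ∃ C : ℕ, 1 ≤ C ∧ ∀ (ι : Type) [Fintype ι] (B : Finset (ι → ℤ)) (N K L : ℝ),
  1 ≤ K → 1 ≤ L → 0 < N → N ≤ K * B.card → (B.card : ℝ) ≤ K * N →
  ((B - B).card : ℝ) ≤ K * N →
  (∀ lam mu : ℝ, L⁻¹ ≤ |lam| → |lam| ≤ L → L⁻¹ ≤ |mu| → |mu| ≤ L → Qm N K B lam → Qm N K B mu →
    Qm N ((K * (C * L) ^ Fintype.card ι) ^ C) B (lam * mu) ∧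
    Qm N ((K * (C * L) ^ Fintype.card ι) ^ C) B lam⁻¹) ∧
  ∀ lam mu : ℝ, L⁻¹ ≤ |lam| → |lam| ≤ L → Qm N K B lam → Qm N K B mu →
    Qm N ((K * (C * L) ^ Fintype.card ι) ^ C) B (-lam) ∧
    Qm N ((K * (C * L) ^ Fintype.card ι) ^ C) B (lam + mu)

open scoped Classical in
/-- RAT: the multiplier of two sets with the same mate -/
def T_RAT : Prop := ∃ C : ℕ, 1 ≤ C ∧ ∀ (ι : Type) [Fintype ι] (A B : Finset (ι → ℤ)) (N K L : ℝ),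
  1 ≤ K → 1 ≤ L → 0 < N → N ≤ K * A.card → N ≤ K * B.card →
  (∀ u : ℝ, L⁻¹ ≤ |u| → |u| ≤ L → L⁻¹ ≤ |1 - u| → |1 - u| ≤ L →
    ((sl u A B).card : ℝ) ≤ K * N →
    ((A - fl (-(u / (1 - u))) B).card : ℝ) ≤ (K * (C * L) ^ Fintype.card ι) ^ C * N ∧
    ((B - B).card : ℝ) ≤ (K * (C * L) ^ Fintype.card ι) ^ C * N) ∧
  ∀ r s : ℝ, L⁻¹ ≤ |r| → |r| ≤ L → L⁻¹ ≤ |s| → |s| ≤ L →
    ((A - fl r B).card : ℝ) ≤ K * N →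
    (((A - fl s B).card : ℝ) ≤ K * N →
      Qm N ((K * (C * L) ^ Fintype.card ι) ^ C) B (s / r)) ∧
    (Qm N K B r → ((A - B).card : ℝ) ≤ (K * (C * L) ^ Fintype.card ι) ^ C * N)

open scoped Classical in
/-- ADD: small slices at four generic positions force small differences -/
def T_ADD : Prop := ∃ C : ℕ, 1 ≤ C ∧ ∀ (ι : Type) [Fintype ι] (A B : Finset (ι → ℤ))
  (N K L a c : ℝ),
  1 ≤ K → 1 ≤ L → 0 < N → N ≤ K * A.card → N ≤ K * B.card → (A.card : ℝ) ≤ N → (B.card : ℝ) ≤ N →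
  |a| ≤ L → |c| ≤ L → L⁻¹ ≤ |a| → L⁻¹ ≤ |c| → L⁻¹ ≤ |1 - a| → L⁻¹ ≤ |1 - c| → L⁻¹ ≤ |1 + a| →
  L⁻¹ ≤ |1 + c| → L⁻¹ ≤ |a - c| →
  (∀ u ∈ ({a, a + 1, c, c + 1} : Set ℝ), ((sl u A B).card : ℝ) ≤ K * N) →
  ((A - B).card : ℝ) ≤ (K * (C * L) ^ Fintype.card ι) ^ C * N

open scoped Classical in
/-- PTH: paths of length three give small slices -/
def T_PTH : Prop := ∀ (ι : Type) [Fintype ι] (A B Y A' B' : Finset (ι → ℤ))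
  (G : Finset ((ι → ℤ) × (ι → ℤ))) (N k E L u : ℝ), 0 < N → 0 < k → 1 ≤ E → 1 ≤ L →
  L⁻¹ ≤ |u| → L⁻¹ ≤ |1 - u| → (Y.card : ℝ) ≤ N →
  (∀ e ∈ G, ∃ z ∈ Y, ∀ i, |(1 - u) * (e.1 i : ℝ) + u * (e.2 i : ℝ) - z i| ≤ E) →
  (∀ a ∈ A', ∀ b ∈ B', N ^ 2 ≤ k *
    (((B ×ˢ A).filter fun p => (a, p.1) ∈ G ∧ (p.2, p.1) ∈ G ∧ (p.2, b) ∈ G).card : ℝ)) →
  ((sl u A' B').card : ℝ) ≤ k * (10 * E * L) ^ (3 * Fintype.card ι) * N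

open scoped Classical in
/-- CMB: affine functions with many values near few points, six slices, few differences -/
def T_CMB : Prop := ∃ C : ℕ, 1 ≤ C ∧ ∀ (ι : Type) [Fintype ι] (τ : Type) (TT : Finset τ)
  (P V : τ → ι → ℝ) (S : τ → Finset ℤ) (I : Finset ℤ) (Y : ℤ → Finset (ι → ℤ))
  (J κ Θ E μ K : ℝ), 1 ≤ J → 0 < κ → κ ≤ 1 → 2 ^ 14 ≤ κ ^ 6 * J → 1 ≤ Θ → 1 ≤ E → 1 ≤ μ → 1 ≤ K →
  (∀ u ∈ I, ∀ v ∈ I, |((u : ℝ) - v)| ≤ J) →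
  (∀ T ∈ TT, S T ⊆ I ∧ κ * J ≤ ((S T).card : ℝ)) →
  (∀ T ∈ TT, ∀ u ∈ S T, ∃ y ∈ Y u, ∀ i, |P T i + u * V T i - y i| ≤ E) →
  ∑ u ∈ I, ((Y u).card : ℝ) ≤ Θ * J →
  (∀ u ∈ I, ∀ v ∈ I, κ ^ 6 / 2 ^ 14 * J ≤ |((u : ℝ) - v)| → ∀ y ∈ Y u, ∀ y' ∈ Y v,
    ((TT.filter fun T => (∀ i, |P T i + u * V T i - y i| ≤ E) ∧
      ∀ i, |P T i + v * V T i - y' i| ≤ E).card : ℝ) ≤ μ) →
  Θ ^ 2 ≤ K * TT.card →
  ∃ TT' ⊆ TT, ∃ h : ℤ, κ ^ 6 / 2 ^ 14 * J ≤ |(h : ℝ)| ∧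
    (TT.card : ℝ) ≤ (K * μ * (C * E / κ) ^ (Fintype.card ι + 1)) ^ C * TT'.card ∧
    ((TT'.image fun T i => ⌊(h : ℝ) * V T i⌋).card : ℝ) ≤
      (K * μ * (C * E / κ) ^ (Fintype.card ι + 1)) ^ C * Θ

end Pool.Agent.H82.HD
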