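import Pool.Agent.H82.HD.Fin
import Pool.Agent.H83.G.Final
import Pool.Agent.H22.G4.BAS
import Pool.Agent.H22.G.PG
import Pool.Agent.H1.HDN.BROp
import Pool.Agent.H11.HD.PTC
import Pool.Agent.H14.HDS.BSG
import Pool.Agent.H14.HDS.PAT
import Pool.Agent.H25.HDS.RLW
import Pool.Agent.H26.HD.BCF
import Pool.Agent.H29.HD.PRJ
import Pool.Agent.H35.HD.MUL
import Pool.Agent.H37.HD.FLB
import Pool.Agent.H37.HD.PTH
import Pool.Agent.H38.HD.LEVp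
import Pool.Agent.H38.HD.OENp
import Pool.Agent.H39.HDS.BCS
import Pool.Agent.H4.HDS.BCC
import Pool.Agent.H40.HD.BC0
import Pool.Agent.H40.HD.SSCp
import Pool.Agent.H51.HDS.CFN
import Pool.Agent.H54.HDS.TDA
import Pool.Agent.H61.HD.BCS1
import Pool.Agent.H62.HD.TEN1
import Pool.Agent.H65.HD.MAINp
import Pool.Agent.H69.HDS.ADD
import Pool.Agent.H69.HDS.RECp
import Pool.Agent.H76.HD.TUB
import Pool.Agent.H81.HDS.CBA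
import Pool.Agent.H85.HD.BUS
import Pool.Agent.H86.HDS.BCN
import Pool.Agent.H89.HDS.BPG
import Pool.Agent.H91.HD.PRM
import Pool.Agent.H95.HD.CMB
import Pool.Agent.H95.HD.RAT
import Pool.Agent.H97.HD.CVR

/-!
MP_ee74d2_an, theorem HD: assembly of the board hds_modules.
-/

set_option autoImplicit false

namespace Pool.Agent.H82.HD.All

open Pool.Agent.H82.HD Pool.Agent.H83.G.Chain
open Pool.Agent.H81.GT (T_COV T_ACS T_TAI T_POW T_REP T_TX T_CLS T_SHP)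

/-! ### proved facts -/

theorem gCOV : Pool.Agent.H81.GT.T_COV := Pool.Agent.H56.G.COV.pf_COV
theorem gACS : Pool.Agent.H81.GT.T_ACS := Pool.Agent.H34.G.ACS.pf_ACS
theorem gPOW : Pool.Agent.H81.GT.T_POW := Pool.Agent.H59.G.pf_POW
theorem gREP : Pool.Agent.H81.GT.T_REP := Pool.Agent.H33.G.pf_REP gCOV
theorem gTX : Pool.Agent.H81.GT.T_TX := Pool.Agent.H70.G.TX.pf_TX
theorem gTAI : Pool.Agent.H81.GT.T_TAI :=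
  Pool.Agent.H49.G.TAI.pf_TAI (Pool.Agent.H33.G.pf_PKB (Pool.Agent.H35.G.PIE.pf_PIE
    Pool.Agent.H70.G.SUB.pf_SUB Pool.Agent.H83.LS.Chain.kbv gACS) gACS) gPOW
theorem gCLS : Pool.Agent.H81.GT.T_CLS :=
  Pool.Agent.H81.GT.pf_CLS gREP gACS (Pool.Agent.H81.GT.pf_SHP gCOV gACS gTAI
    (Pool.Agent.H34.G.TRP.pf_TRP gPOW m_LOA m_LOB) Pool.Agent.H1.G.VOL.pf_VOL
    Pool.Agent.H83.LS.Chain.ple m_LOA m_LOB) m_WM m_AVG m_LOA m_LOB m_SCH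
theorem gGL2 : Pool.Agent.H81.GT.T_GL2 := Pool.Agent.H83.G.Final.gl2
theorem gBAS : Pool.Agent.H22.G4.T_BASx := Pool.Agent.H22.G4.BAS.pf_BASx m_SPK m_SPW m_PUX m_PLN
theorem gTE1 : Pool.Agent.H83.G.T_TE1 := m_TE1 Pool.Agent.H93.BD.All.main

/-! ### the rows -/

theorem h_BSG : T_BSG := Pool.Agent.H14.HDS.pf_BSG
theorem h_PAT : T_PAT := Pool.Agent.H14.HDS.pf_PAT
theorem h_FLB : T_FLB := Pool.Agent.H37.HD.pf_FLB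
theorem h_MUL : T_MUL := Pool.Agent.H35.HD.pf_MUL h_FLB
theorem h_RAT : T_RAT := Pool.Agent.H95.HD.pf_RAT h_FLB
theorem h_ADD : T_ADD := Pool.Agent.H69.HDS.pf_ADD h_MUL h_RAT
theorem h_PTH : T_PTH := Pool.Agent.H37.HD.pf_PTH
theorem h_CMB : T_CMB := Pool.Agent.H95.HD.pf_CMB h_PAT h_BSG h_PTH h_ADD
theorem h_BPG : T_BPG := Pool.Agent.H89.HDS.pf_BPG
theorem h_CVR : T_CVR := Pool.Agent.H97.HD.pf_CVR
theorem h_RLW : T_RLW := Pool.Agent.H25.HDS.pf_RLW m_MOD m_PLN m_PSX m_WM m_PUB m_PUS m_WT1 m_WT3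
  m_SCH m_CPS
theorem h_BCC : T_BCC := Pool.Agent.H4.HDS.pf_BCC h_BPG m_PUB m_PUS m_LOA m_LOB
theorem h_BCS1 : T_BCS1 := Pool.Agent.H61.HD.pf_BCS1 h_RLW m_PKT m_IVZ m_LO m_WM m_PUB m_PUS m_CPS m_SCH m_WT1
theorem h_BCS : T_BCS := Pool.Agent.H39.HDS.pf_BCS h_BCS1 h_CVR h_BPG m_CLR m_WT1 m_WT2 m_WT3 m_PUS m_SCH m_CPS
theorem h_SSCp : T_SSCp := Pool.Agent.H40.HD.pf_SSCp m_SSC h_BCC h_BCS
theorem h_TUB : T_TUB := Pool.Agent.H76.HD.pf_TUB m_LOA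
theorem h_PTC : T_PTC := Pool.Agent.H11.HD.pf_PTC h_CVR h_BPG m_AMU m_LOA m_LOB m_WT1 m_WT3 m_PUS
  m_SCH m_CPS
theorem h_BCF : T_BCF := Pool.Agent.H26.HD.BCF.pf_BCF h_BPG Pool.Agent.H83.LS.Chain.ple gACS gPOW
  gTAI
theorem h_BCN : T_BCN := Pool.Agent.H86.HDS.BCN.pf_BCN gACS m_PUS Pool.Agent.H83.LS.Chain.ple
theorem h_BC0 : T_BC0 := Pool.Agent.H40.HD.pf_BC0 h_BCC h_BCF h_BCN h_BPG gCLS gREP gACS gCOV m_KER m_SPK m_KSP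
  m_PUB m_PUS m_SCH m_WT2
theorem h_LEVp : T_LEVp := Pool.Agent.H38.HD.pf_LEVp h_BC0 gTX gCOV gREP gGL2 gCLS m_SPK m_PUX m_SCH
theorem h_OENp : T_OENp := Pool.Agent.H38.HD.pf_OENp h_SSCp m_GBE m_AMU m_PLN
theorem h_BROp : T_BROp := Pool.Agent.H1.HDN.pf_BROp m_DCP m_TLS m_AMU m_AEN m_ENB m_PG1 m_PG2 m_PG3
  h_OENp m_PSX m_LWX m_CBN m_WT3
theorem h_RECp : T_RECp := Pool.Agent.H69.HDS.pf_RECp h_BROp gBAS m_ENS m_ENB m_WT3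
theorem h_MAINp : T_MAINp := Pool.Agent.H65.HD.pf_MAINp h_RECp gBAS
theorem h_BUS : T_BUS := Pool.Agent.H85.HD.pf_BUS Pool.Agent.H22.G.pf_HG1 Pool.Agent.H22.G.pf_HG2
  m_PUS
theorem h_TDA : T_TDA := Pool.Agent.H54.HDS.pf_TDA Pool.Agent.H22.G.pf_PG4 Pool.Agent.H22.G.pf_HG2
  Pool.Agent.H22.G.pf_MU h_BUS m_CBN gTE1 m_TE2 m_TLS m_AMU m_PUS
theorem h_PRJ : T_PRJ := Pool.Agent.H29.HD.pf_PRJ h_BPG Pool.Agent.H22.G.pf_HG1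
theorem h_PRM : T_PRM := Pool.Agent.H91.HD.pf_PRM h_BPG m_PUS m_LOA m_LOB
theorem h_CBA : T_CBA := Pool.Agent.H81.HDS.pf_CBA h_CMB h_PRJ h_PRM h_BPG m_CBN
theorem h_CFN : T_CFN := Pool.Agent.H51.HDS.pf_CFN
theorem h_TEN1 : T_TEN1 := Pool.Agent.H62.HD.pf_TEN1 h_TDA h_CBA h_PTC h_TUB h_CFN h_BPG m_AMU m_PUS

/-- Q1 in high dimensions -/
theorem main : ∃ (m₀ : ℕ) (s : ℝ), 0 < s ∧ s < 1 / 3 ∧ 4 ≤ m₀ ∧ ∀ (m : ℕ) (p : ℝ), m₀ ≤ m →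
    2 + (8 / 3 - s) / m ≤ p → Pool.Agent.H81.GT.Q1at m p :=
  q1_hd h_TEN1 h_MAINp h_LEVp m_PUX

end Pool.Agent.H82.HD.All
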