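import Pool.Agent.H83.G.Targets5
import Pool.Agent.H22.G4.Targets

/-!
MP_ee74d2_an, theorem HD (high dimensions): definitions. `tm z` is the time, `bp η z` the point at
time `0` of the ray of direction `(‖η‖², -2η, 1)` through `z`.
-/

set_option autoImplicit false

namespace Pool.Agent.H82.HD

open MeasureTheory Set
open Pool.Agent.H83.G
open Pool.Agent.H22.G (co)
open scoped ENNReal NNReal RealInnerProductSpace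

section

variable {m : ℕ}

/-- time -/
noncomputable def tm (z : Z m) : ℝ := z.1 + z.2.2

/-- the velocity of the rays of direction `(‖η‖², -2η, 1)` -/
noncomputable def wv (η : E m) : ℝ × E m :=
  (‖η‖ ^ 2 / (1 + ‖η‖ ^ 2), -((2 / (1 + ‖η‖ ^ 2)) • η))

/-- back projection to time `0` -/
noncomputable def bp (η : E m) (z : Z m) : ℝ × E m :=
  (z.1 - tm z * (‖η‖ ^ 2 / (1 + ‖η‖ ^ 2)), z.2.1 + (2 * tm z / (1 + ‖η‖ ^ 2)) • η)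

/-- the part of the ball of radius `ρ` whose back projection is near `p` -/
def Om (T ρ : ℝ) (η : E m) (z₁ : Z m) (p : ℝ × E m) : Set (Z m) :=
  {z | ‖z - z₁‖ ≤ ρ ∧ ‖bp η z - p‖ ≤ T * sR ρ}

/-- the condition of back projection -/
def BC (β : E m → ℂ) (κ R T A : ℝ) (G : Z m → ℂ) : Prop :=
  ∀ (ρ : ℝ) (z₁ : Z m) (p : ℝ × E m), 1 ≤ ρ → ρ ≤ R → (1 / 4 + κ) * T ≤ tm z₁ →
    tm z₁ ≤ (4 - κ) * T →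
    ∑ k ∈ Ks m (sR ρ), ∫⁻ z in Om T ρ (ctr (sR ρ) k) z₁ p,
      ‖TP β (ctr (sR ρ) k) (sR ρ) G z‖ₑ ^ 2 ≤
      ENNReal.ofReal (A ^ 2 * R ^ m * ρ ^ (3 - (m : ℝ) / 2))

/-- the level set estimate at scale `R` and time `T` -/
def Bdp (m L : ℕ) (β : E m → ℂ) (x κ R T g : ℝ) : Prop :=
  ∀ (A H : ℝ) (G : Z m → ℂ) (X : Finset (Z m)), 0 < A → 0 < H → Cls L κ R A G →
    BC β κ R T A G → Sep X → (∀ z ∈ X, T ≤ tm z ∧ tm z ≤ 2 * T ∧ H ≤ ‖TF G z‖) →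
    (X.card : ℝ) * H ^ (2 + x) ≤ g * A ^ x * R ^ (m * x / 2 - 1) * ∫ ζ, ‖G ζ‖ ^ 2

/-- coordinates of a point of `ℝ × ℝ^m` -/
def vc (p : ℝ × E m) : Fin (m + 1) → ℝ := Fin.cons p.1 (fun i => p.2 i)

/-- projective time of a cube of side `R^{1/2}` -/
noncomputable def uq (R T : ℝ) (q : Zi m) : ℤ := ⌊T ^ 2 / (Real.sqrt R * tm (co R q))⌋

/-- projective position of a cube of side `R^{1/2}` -/
noncomputable def yq (R T : ℝ) (z₀ : Z m) (q : Zi m) (i : Fin (m + 1)) : ℤ :=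
  ⌊T / (Real.sqrt R * tm (co R q)) * vc ((co R q).1 - z₀.1, (co R q).2.1 - z₀.2.1) i⌋

end

open scoped Classical in
/-- the two-ends case for one family of planks -/
def TENd (m L : ℕ) (x γ : ℝ) : Prop := ∀ (β : E m → ℂ) (Ψ : Z m → ℂ) (ψ : Z m → ℝ)
  (δ ε₀ ε₂ B : ℝ),
  IsPU β → IsPsi Ψ ψ → 0 < δ → δ ≤ γ → δ ≤ 1 / 100 → 0 < ε₀ → ε₀ ≤ γ → ε₀ ≤ 1 / 4 →
  4 * δ ≤ ε₂ → 1 ≤ B → ∃ N₀ : ℕ, ∀ N : ℕ, N₀ ≤ N → ∃ C : ℝ, 1 ≤ C ∧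
  ∀ (κ R T A H En : ℝ) (G : Z m → ℂ) (z₀ : Z m)
  (S : Finset (Pk m)) (a b : ℝ) (l k : ℕ) (QQ : Finset (Zi m)) (ν : ℝ)
  (X : Finset (Z m)), 0 ≤ κ → κ ≤ 3 / 8 → 1 ≤ R → C ≤ R ^ δ → R ^ (1 + ε₂) ≤ T → 0 < A → 0 < H →
  A ≤ R ^ δ * H → 0 < En → Cls L κ R A G → BC β κ R T A G →
  Sep X → (∀ z ∈ X, ‖z - z₀‖ ≤ R ∧ T ≤ tm z ∧ tm z ≤ 2 * T) →
  (∀ W ∈ S, W.1 ∈ Ks m (sR R) ∧ (∃ z, ‖z - z₀‖ ≤ R ∧ near R δ W z) ∧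
    ‖ctr (sR R) W.1‖ ≤ 3 ∧ a ≤ al N β R δ G W ∧ al N β R δ G W ≤ 2 * a) →
  ((S.card : ℝ) ≤ B * R ^ (2 * ((m : ℝ) + 2))) →
  0 < a → 1 ≤ b →
  (∀ W ∈ S, b ≤ ((S.filter (fun W' => tb R W' = tb R W)).card : ℝ) ∧
    ((S.filter (fun W' => tb R W' = tb R W)).card : ℝ) ≤ 2 * b) →
  (∑ W ∈ S, al N β R δ G W ^ 2 * R ^ (((m : ℝ) + 2) / 2) ≤ En) →
  En ≤ B * R ^ (lo m * δ) * (A ^ 2 * R ^ ((m : ℝ) + 2)) →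
  0 < ν → ν * QQ.card ≤ R ^ δ * X.card →
  (∀ q, ((X.filter (fun z => cb (Real.sqrt R) z = q)).card : ℝ) ≤ 2 * ν) →
  (∀ z ∈ X, cb (Real.sqrt R) z ∈ QQ) →
  (∀ q ∈ QQ, ‖Real.sqrt R • zc q - z₀‖ ≤ ((m : ℝ) + 2) * R) →
  C ≤ (2 : ℝ) ^ k →
  (∀ z ∈ X, H ≤ ‖∑ W ∈ SB QQ R (R ^ (1 - ε₀)) δ l k S
    (bl R (R ^ (1 - ε₀)) (cb (Real.sqrt R) z)), Fp β ψ R δ G W z‖) →
  (X.card : ℝ) * H ^ (2 + x) ≤
    C * R ^ ((lb m - 1) * (δ + ε₀)) * A ^ x * R ^ (m * x / 2 - 1) * En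

end Pool.Agent.H82.HD
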