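import Pool.Agent.H82.HD.TA
import Pool.Agent.H81.GT.TargetsT
import Pool.Agent.H81.GT.Defs2

/-!
MP_ee74d2_an, theorem HD: targets for the wave (block W). Dimension `n + 1`.
-/

set_option autoImplicit false

namespace Pool.Agent.H82.HD

open MeasureTheory Set FourierTransform
open scoped ENNReal NNReal RealInnerProductSpace
open Pool.Agent.H83.LS (EE BCd pr)
open Pool.Agent.H81.GT (SymE Ua ac IsX Gf zt SEC)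
open Pool.Agent.H83.G (E Z Ks ctr sR IsPU)

/-- BCF: data far from the back projection -/
def T_BCF : Prop := ∀ (n N : ℕ) (κ D δ : ℝ) (a : EE (n + 1) → ℂ), 1 ≤ n → κ ≤ 1 / 8 →
  SymE n κ a → 0 ≤ D → 0 < δ →
  ∃ C : ℝ, 1 ≤ C ∧ ∀ (R ρ A t : ℝ) (η : E n) (x : EE (n + 1)) (f : EE (n + 1) → ℂ), 1 ≤ R →
  1 ≤ ρ → ρ ≤ R → |t| ≤ 8 * R → ‖η‖ ≤ D → BCd A f →
  (∀ y, f y ≠ 0 → C * R ^ δ * R * sR ρ ≤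
    ‖(((y (Fin.last n)) / 2, pr y) : ℝ × E n) - bp η (zt x t)‖) →
  ‖Ua (ac a η (sR ρ)) t f x‖ ≤ C * A * (R ^ N)⁻¹

/-- BCN: orthogonality of the caps -/
def T_BCN : Prop := ∀ (n : ℕ) (κ : ℝ) (a : EE (n + 1) → ℂ), κ ≤ 1 / 8 → SymE n κ a →
  ∃ C : ℝ≥0, ∀ (A s t : ℝ) (f : EE (n + 1) → ℂ), 0 < s → s ≤ 1 → BCd A f →
  ∑ k ∈ Ks n s, ∫⁻ x, ‖Ua (ac a (ctr s k) s) t f x‖ₑ ^ 2 ≤ C * ∫⁻ x, ‖f x‖ₑ ^ 2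

/-- BC0: the wave satisfies the condition of back projection -/
def T_BC0 : Prop := ∀ (n L : ℕ) (κ δ : ℝ) (β : E n → ℂ) (a : EE (n + 1) → ℂ) (X χ : ℝ → ℂ),
  1 ≤ n → 2 * n + 6 ≤ L → κ ≤ 1 / 8 → IsPU β → SymE n κ a → IsX X χ → 0 < δ →
  ∃ C : ℝ, 1 ≤ C ∧ ∀ (R A : ℝ) (f : EE (n + 1) → ℂ), 1 ≤ R → 0 < A → BCd A f →
    BC β (1 / 4) R R (C * R ^ δ * A) (Gf X R a f)

/-- LEVp: from the level sets to one sector -/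
def T_LEVp : Prop := ∀ (n : ℕ) (κ x q : ℝ), 1 ≤ n → κ ≤ 1 / 8 → 0 < x → 2 + x < q →
  (∀ ε : ℝ, 0 < ε → ∃ (L : ℕ) (β : E n → ℂ) (C : ℝ), 2 * n + 6 ≤ L ∧ IsPU β ∧ 0 < C ∧
    ∀ R : ℝ, 1 ≤ R → Bdp n L β x (1 / 4) R R (C * R ^ ε)) → SEC n κ q

end Pool.Agent.H82.HD
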