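import Pool.Agent.H82.HD.Defs

/-!
MP_ee74d2_an, theorem HD: analytic targets (block A) for functions of the class.
-/

set_option autoImplicit false

namespace Pool.Agent.H82.HD

open MeasureTheory Set
open Pool.Agent.H83.G
open Pool.Agent.H22.G (co)
open scoped ENNReal NNReal RealInnerProductSpace

/-- BPG: back projection -/
def T_BPG : Prop := ∀ m : ℕ,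
  (∀ (η : E m) (z z' : Z m), bp η (z + z') = bp η z + bp η z' ∧
    bp η (z - z') = bp η z - bp η z') ∧
  (∀ (η : E m) (c : ℝ) (z : Z m), bp η (c • z) = c • bp η z) ∧
  (∀ (z z' : Z m) (c : ℝ), tm (z + z') = tm z + tm z' ∧ tm (z - z') = tm z - tm z' ∧
    tm (c • z) = c * tm z ∧ |tm z| ≤ 2 * ‖z‖) ∧
  (∀ (η : E m) (z : Z m), bp η z = ((z.1, z.2.1) : ℝ × E m) - tm z • wv η ∧ ‖wv η‖ ≤ 1) ∧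
  ∀ D : ℝ, 0 ≤ D → ∃ C : ℝ, 1 ≤ C ∧
   (∀ (η : E m) (z : Z m), ‖η‖ ≤ D → ‖bp η z‖ ≤ C * ‖z‖ ∧ ‖z‖ ≤ C * (‖bp η z‖ + |tm z|) ∧
      ‖bp η z‖ ≤ C * (|(Lo η 1 z).1| + ‖(Lo η 1 z).2.1‖) ∧
      |(Lo η 1 z).1| + ‖(Lo η 1 z).2.1‖ ≤ C * ‖bp η z‖) ∧
   (∀ (η η' : E m) (z : Z m), ‖η‖ ≤ D → ‖η'‖ ≤ D →
      ‖bp η z - bp η' z‖ ≤ C * |tm z| * ‖η - η'‖ ∧
      |tm z| * ‖η - η'‖ ≤ C * ‖bp η z - bp η' z‖ ∧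
      ‖η - η'‖ ≤ C * ‖wv η - wv η'‖ ∧ ‖wv η - wv η'‖ ≤ C * ‖η - η'‖)

/-- CVR: covering of fat regions by regions `Om` -/
def T_CVR : Prop := ∀ m : ℕ, ∃ C : ℝ, 1 ≤ C ∧ ∀ (T ρ lam : ℝ) (z₁ : Z m) (p : ℝ × E m)
  (K : Finset (Fin m → ℤ)) (η : (Fin m → ℤ) → E m) (f : (Fin m → ℤ) → Z m → ℝ≥0∞) (S : ℝ≥0∞),
  0 < T → 0 < ρ → 1 ≤ lam →
  (∀ (z' : Z m) (p' : ℝ × E m), ‖z' - z₁‖ ≤ 2 * lam * ρ →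
    ∑ k ∈ K, ∫⁻ z in Om T ρ (η k) z' p', f k z ≤ S) →
  ∑ k ∈ K, ∫⁻ z in {z : Z m | ‖z - z₁‖ ≤ lam * ρ ∧ ‖bp (η k) z - p‖ ≤ lam * (T * sR ρ)}, f k z ≤
    ENNReal.ofReal (C * lam ^ (2 * m + 3)) * S

/-- RLW: reverse local orthogonality on balls of radius `R^{1/2}`, with weights -/
def T_RLW : Prop := ∀ (m N : ℕ) (β : E m → ℂ) (δ : ℝ), IsPU β → 0 < δ → m + 3 ≤ N →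
  ∃ (N₁ : ℕ) (C : ℝ≥0), N ≤ N₁ ∧
  ∀ (R : ℝ) (c : Z m) (G : Z m → ℂ) (I : Finset (Fin m → ℤ)), 1 ≤ R → I ⊆ Ks m (sR R) → TC G →
  (∀ ζ, G ζ ≠ 0 → 1 / 2 ≤ ζ.1 ∧ ζ.1 ≤ 6) →
  ∑ k ∈ I, ∫⁻ z, ‖TP β (ctr (sR R) k) (sR R) G z‖ₑ ^ 2 *
      ENNReal.ofReal (wt N₁ ((Real.sqrt R)⁻¹ • (z - c))) ≤
    C * ENNReal.ofReal (R ^ δ) *
      ∫⁻ z, ‖TF G z‖ₑ ^ 2 * ENNReal.ofReal (wt N ((Real.sqrt R)⁻¹ • (z - c)))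

/-- BCC: the class controls small scales -/
def T_BCC : Prop := ∀ (m L : ℕ) (β : E m → ℂ), IsPU β → ∃ C : ℝ, 1 ≤ C ∧
  ∀ (κ R T A ρ : ℝ) (G : Z m → ℂ) (z₁ : Z m) (p : ℝ × E m), 0 ≤ κ → κ ≤ 1 / 2 → 1 ≤ R → 1 ≤ ρ →
  ρ ^ (3 / 2 : ℝ) ≤ R → R ≤ T → 0 < A → Cls L κ R A G → T / 8 ≤ tm z₁ →
  ∑ k ∈ Ks m (sR ρ), ∫⁻ z in Om T ρ (ctr (sR ρ) k) z₁ p,
    ‖TP β (ctr (sR ρ) k) (sR ρ) G z‖ₑ ^ 2 ≤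
    ENNReal.ofReal (C * (A ^ 2 * R ^ m * ρ ^ (5 / 2 - (m : ℝ) / 2)))

/-- BCS1: localized sub-sums on balls of radius `R^{1/2}` -/
def T_BCS1 : Prop := ∀ (m N : ℕ) (β : E m → ℂ) (Ψ Ξ : Z m → ℂ) (ψ χ : Z m → ℝ) (δ δ' : ℝ),
  IsPU β → IsPsi Ψ ψ → IsLow Ξ χ → 0 < δ → δ ≤ 1 / 4 → 0 < δ' → m + 3 ≤ N → ∃ C : ℝ, 1 ≤ C ∧
  ∀ (κ R r ρ : ℝ) (G G' : Z m → ℂ) (S : Finset (Pk m)) (w x : Z m) (k' : Fin m → ℤ), 0 ≤ κ →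
  κ ≤ 3 / 8 → 1 ≤ R → C ≤ R ^ δ → Real.sqrt R ≤ r → r ≤ R / C → 1 ≤ ρ → ρ ≤ R →
  TC G → (∀ ζ, G ζ ≠ 0 → ζ ∈ Rg m κ R⁻¹) → (∀ W ∈ S, W.1 ∈ Ks m (sR R)) → TC G' →
  (∀ z, TF G' z = (χ (r⁻¹ • (z - w)) : ℂ) * ∑ W ∈ S, Fp β ψ R δ G W z) →
  ∫⁻ z in {z : Z m | ‖z - x‖ ≤ Real.sqrt R}, ‖TP β (ctr (sR ρ) k') (sR ρ) G' z‖ₑ ^ 2 ≤
    ENNReal.ofReal (C * R ^ δ') *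
      ∑ k ∈ (Ks m (sR ρ)).filter (fun k => ‖ctr (sR ρ) k - ctr (sR ρ) k'‖ ≤ 6 * sR ρ),
        ∫⁻ z, ‖TP β (ctr (sR ρ) k) (sR ρ) G z‖ₑ ^ 2 *
          ENNReal.ofReal (wt N ((Real.sqrt R)⁻¹ • (z - x)))

/-- BCS: localized sub-sums satisfy the condition of back projection at large scales -/
def T_BCS : Prop := ∀ (m L : ℕ) (β : E m → ℂ) (Ψ Ξ : Z m → ℂ) (ψ χ : Z m → ℝ) (δ ε₀ δ' : ℝ),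
  IsPU β → IsPsi Ψ ψ → IsLow Ξ χ → 0 < δ → δ ≤ 1 / 4 → 2 * δ ≤ ε₀ → ε₀ ≤ 1 / 2 → 0 < δ' →
  ∃ C : ℝ, 1 ≤ C ∧
  ∀ (κ R T A ρ : ℝ) (G G' : Z m → ℂ) (S : Finset (Pk m)) (w z₁ : Z m) (p : ℝ × E m), 0 ≤ κ →
  κ ≤ 3 / 8 → 1 ≤ R → C ≤ R ^ δ → R ≤ T → 0 < A → Cls L κ R A G → BC β κ R T A G →
  (∀ W ∈ S, W.1 ∈ Ks m (sR R)) → TC G' →
  (∀ z, TF G' z = (χ ((R ^ (1 - ε₀))⁻¹ • (z - w)) : ℂ) * ∑ W ∈ S, Fp β ψ R δ G W z) →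
  Real.sqrt R ≤ ρ → ρ ≤ R ^ (1 - ε₀) → (1 / 4 + (κ + C * R ^ (-δ))) * T ≤ tm z₁ →
  tm z₁ ≤ (4 - (κ + C * R ^ (-δ))) * T →
  ∑ k ∈ Ks m (sR ρ), ∫⁻ z in Om T ρ (ctr (sR ρ) k) z₁ p,
    ‖TP β (ctr (sR ρ) k) (sR ρ) G' z‖ₑ ^ 2 ≤
    ENNReal.ofReal (C * R ^ δ' * (A ^ 2 * R ^ m * ρ ^ (3 - (m : ℝ) / 2)))

/-- SSCp: stability of the class and of the condition under localized sub-sums -/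
def T_SSCp : Prop := ∀ (m L : ℕ) (β : E m → ℂ) (Ψ Ξ : Z m → ℂ) (ψ χ : Z m → ℝ) (δ ε₀ δ' : ℝ),
  IsPU β → IsPsi Ψ ψ → IsLow Ξ χ → 0 < δ → δ ≤ 1 / 4 → 2 * δ ≤ ε₀ → ε₀ ≤ 1 / 4 → 0 < δ' →
  2 * m + 6 ≤ L → ∃ C : ℝ, 1 ≤ C ∧
  ∀ (κ R T A : ℝ) (G : Z m → ℂ) (S : Finset (Pk m)) (w : Z m), 0 ≤ κ → κ ≤ 3 / 8 →
  1 ≤ R → C ≤ R ^ δ → R ≤ T → 0 < A → Cls L κ R A G → BC β κ R T A G →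
  (∀ W ∈ S, W.1 ∈ Ks m (sR R)) →
  ∃ G' : Z m → ℂ,
    Cls L (κ + C * R ^ (-δ)) (R ^ (1 - ε₀))
      (C * R ^ δ' * A * (R / R ^ (1 - ε₀)) ^ ((m : ℝ) / 2)) G' ∧
    BC β (κ + C * R ^ (-δ)) (R ^ (1 - ε₀)) T
      (C * R ^ δ' * A * (R / R ^ (1 - ε₀)) ^ ((m : ℝ) / 2)) G' ∧
    ∀ z, TF G' z = (χ ((R ^ (1 - ε₀))⁻¹ • (z - w)) : ℂ) * ∑ W ∈ S, Fp β ψ R δ G W z

/-- TUB: the planks of a tube -/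
def T_TUB : Prop := ∀ (m : ℕ) (R δ : ℝ) (W : Pk m) (q : Zi m), 1 ≤ R → 0 ≤ δ →
  Inc R δ (tb R W) q →
  ∃ z, near R δ W z ∧ ‖z - Real.sqrt R • zc q‖ ≤ ((m : ℝ) + 3) * R ^ (1 / 2 + δ)

/-- PTC: planks with a common back projection -/
def T_PTC : Prop := ∀ (m L : ℕ) (β : E m → ℂ) (δ ε₂ B : ℝ), IsPU β → 0 < δ → δ ≤ 1 / 100 →
  4 * δ ≤ ε₂ → 1 ≤ B →
  ∃ N₀ : ℕ, ∀ N : ℕ, N₀ ≤ N → ∃ C : ℝ, 1 ≤ C ∧ ∀ (κ R T A a : ℝ) (G : Z m → ℂ) (z₀ : Z m)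
  (p : ℝ × E m) (S : Finset (Pk m)), 0 ≤ κ → κ ≤ 3 / 8 → 1 ≤ R → C ≤ R ^ δ →
  R ^ (1 + ε₂) ≤ T → 0 < A → 0 < a → Cls L κ R A G → BC β κ R T A G → 3 / 4 * T ≤ tm z₀ →
  tm z₀ ≤ 3 * T → (S.card : ℝ) ≤ B * R ^ (2 * ((m : ℝ) + 2)) →
  (∀ W ∈ S, W.1 ∈ Ks m (sR R) ∧ a ≤ al N β R δ G W ∧ ∃ z, near R δ W z ∧ ‖z - z₀‖ ≤ B * R ∧
    ‖bp (ctr (sR R) W.1) z - p‖ ≤ B * (T * sR R)) →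
  (S.card : ℝ) * a ^ 2 ≤ C * R ^ (lo m * δ) * (A ^ 2 * R ^ 2)

end Pool.Agent.H82.HD
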